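import Pool.Agent.Y112.SR.Defs

/-!
# Symmetric monoidal functors to graded vector spaces
-/

set_option autoImplicit false

open CategoryTheory Limits MonoidalCategory

namespace Pool.Agent.Y112.KG

open Pool.Agent.Y112.SR

universe v u w

section

variable (C : Type u) [Category.{v} C] [Preadditive C] [MonoidalCategory C] [SymmetricCategory C]
  (K : Type w) [Field K]

/-- A symmetric monoidal functor from `C` to finite dimensional graded vector spaces over `K`: a
realisation in super vector spaces together with the projectors `pr X i` of the vector space `H X`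
onto the homogeneous parts. They are orthogonal idempotents with finite sum `1`, natural and
compatible with the tensor product, the part of degree `i` has parity `(-1) ^ i`. -/
structure GradedRealisation extends SuperRealisation C K where
  /-- the projector onto the part of degree `i` -/
  pr (X : C) (i : ℤ) : H.obj X ⟶ H.obj X
  /-- a finite set of degrees which contains the ones of `H X` -/
  supp (X : C) : Finset ℤ
  pr_supp (X : C) (i : ℤ) : i ∉ supp X → pr X i = 0
  pr_sum (X : C) : ∑ i ∈ supp X, pr X i = 𝟙 _
  pr_sq (X : C) (i : ℤ) : pr X i ≫ pr X i = pr X i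
  pr_orth (X : C) (i j : ℤ) : i ≠ j → pr X i ≫ pr X j = 0
  pr_natural {X Y : C} (f : X ⟶ Y) (i : ℤ) : H.map f ≫ pr Y i = pr X i ≫ H.map f
  pr_unit : pr (𝟙_ C) 0 = 𝟙 _
  pr_tensor (X Y : C) (i j k : ℤ) : (pr X i ⊗ₘ pr Y j) ≫ Functor.LaxMonoidal.μ H X Y ≫
    pr (X ⊗ Y) k = if i + j = k then (pr X i ⊗ₘ pr Y j) ≫ Functor.LaxMonoidal.μ H X Y else 0
  par_pr (X : C) (i : ℤ) : pr X i ≫ par X = ((-1 : K) ^ i) • pr X i

variable {C K}

/-- The Künneth standard conjecture for `M`: all projectors onto the parts of degree `i` of the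
realisation of `M` are algebraic, that is, images of endomorphisms of `M`. -/
def GradedRealisation.Kunneth (R : GradedRealisation C K) (M : C) : Prop :=
  ∀ i : ℤ, ∃ f : M ⟶ M, R.H.map f = R.pr M i

/-- A Chow-Künneth decomposition of `M`: orthogonal idempotents `e i` with finite sum `1` which
induce the projectors onto the parts of degree `i` of the realisation. -/
def GradedRealisation.ChowKunneth (R : GradedRealisation C K) (M : C) : Prop :=
  ∃ (e : ℤ → (M ⟶ M)) (s : Finset ℤ), (∀ i, e i ≫ e i = e i) ∧ (∀ i j, i ≠ j → e i ≫ e j = 0) ∧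
    (∀ i, i ∉ s → e i = 0) ∧ ∑ i ∈ s, e i = 𝟙 M ∧ ∀ i, R.H.map (e i) = R.pr M i

end

end Pool.Agent.Y112.KG
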