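import Pool.Agent.Y112.KG.Defs
import Pool.Agent.Y112.KD.Main

/-!
# Künneth projectors and Chow-Künneth decompositions of the factors of a tensor product
-/

set_option autoImplicit false
set_option linter.unusedSectionVars false
set_option linter.unusedSimpArgs false
set_option backward.isDefEq.respectTransparency false
set_option backward.defeqAttrib.useBackward true

open CategoryTheory Limits MonoidalCategory
open Pool.Agent.Y112.SR Pool.Agent.Y112.KD

namespace Pool.Agent.Y112.KG

universe v u w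

open Functor.LaxMonoidal Functor.OplaxMonoidal

section

variable {C : Type u} [Category.{v} C] [Preadditive C] [MonoidalCategory C] [SymmetricCategory C]
  {K : Type w} [Field K] (R : GradedRealisation C K)

/-- A linear map is algebraic. -/
def IsAlg {M : C} (φ : R.H.obj M ⟶ R.H.obj M) : Prop := ∃ f : M ⟶ M, R.H.map f = φ

lemma IsAlg.zero {M : C} : IsAlg R (0 : R.H.obj M ⟶ R.H.obj M) := ⟨0, R.H.map_zero _ _⟩

variable {R}

lemma IsAlg.add {M : C} {φ ψ : R.H.obj M ⟶ R.H.obj M} (h : IsAlg R φ) (h' : IsAlg R ψ) :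
    IsAlg R (φ + ψ) := by
  obtain ⟨f, rfl⟩ := h
  obtain ⟨g, rfl⟩ := h'
  exact ⟨f + g, R.H.map_add⟩

lemma IsAlg.sub {M : C} {φ ψ : R.H.obj M ⟶ R.H.obj M} (h : IsAlg R φ) (h' : IsAlg R ψ) :
    IsAlg R (φ - ψ) := by
  obtain ⟨f, rfl⟩ := h
  obtain ⟨g, rfl⟩ := h'
  exact ⟨f - g, R.H.map_sub⟩

lemma IsAlg.sum {M : C} {ι : Type*} (s : Finset ι) (φ : ι → (R.H.obj M ⟶ R.H.obj M))
    (h : ∀ i ∈ s, IsAlg R (φ i)) : IsAlg R (∑ i ∈ s, φ i) := by
  classical
  induction s using Finset.induction_on with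
  | empty => simpa using IsAlg.zero R
  | insert a s ha ih =>
    rw [Finset.sum_insert ha]
    exact (h a (Finset.mem_insert_self a s)).add
      (ih (fun i hi => h i (Finset.mem_insert_of_mem hi)))

lemma IsAlg.smul [Linear ℚ C] {M : C} {φ : R.H.obj M ⟶ R.H.obj M} (h : IsAlg R φ) (q : ℚ) :
    IsAlg R ((q : K) • φ) := by
  have hc := R_charZero R.toSuperRealisation
  obtain ⟨f, rfl⟩ := h
  exact ⟨q • f, R_smul R.toSuperRealisation q f⟩

variable (R)

/-- The realisation of a projector of a tensor product. -/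
lemma pr_total (M N : C) (k : ℤ) : μ R.H M N ≫ R.pr (M ⊗ N) k ≫ δ R.H M N =
    ∑ i ∈ R.supp M, (R.pr M i ⊗ₘ R.pr N (k - i)) := by
  have h1 : 𝟙 (R.H.obj M ⊗ R.H.obj N) =
      ∑ i ∈ R.supp M, ∑ j ∈ R.supp N, (R.pr M i ⊗ₘ R.pr N j) := by
    rw [← id_tensorHom_id, ← R.pr_sum M, ← R.pr_sum N, sum_tensor]
    exact Finset.sum_congr rfl fun i _ => tensor_sum _ _ _
  have h2 : μ R.H M N ≫ R.pr (M ⊗ N) k =
      (∑ i ∈ R.supp M, (R.pr M i ⊗ₘ R.pr N (k - i))) ≫ μ R.H M N := by
    rw [← Category.id_comp (μ R.H M N ≫ _), h1, Preadditive.sum_comp, Preadditive.sum_comp]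
    refine Finset.sum_congr rfl fun i _ => ?_
    rw [Preadditive.sum_comp]
    simp only [R.pr_tensor]
    by_cases hj : k - i ∈ R.supp N
    · rw [Finset.sum_eq_single_of_mem (k - i) hj]
      · rw [if_pos (by ring)]
      · intro j _ hne
        rw [if_neg (by omega)]
    · rw [Finset.sum_eq_zero]
      · rw [R.pr_supp N _ hj]
        simp [MonoidalCategory.tensorHom_def]
      · intro j hj'
        rw [if_neg]
        intro h
        apply hj
        have : k - i = j := by omega
        rw [this]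
        exact hj'
  rw [← Category.assoc, h2, Category.assoc, Functor.Monoidal.μ_δ, Category.comp_id]

variable [Linear ℚ C]

/-- The traces of the projectors are natural numbers. -/
lemma exists_rank (X : C) (j : ℤ) : ∃ b : ℕ, LinearMap.trace K (R.H.obj X) (R.pr X j).hom = b ∧
    (b = 0 → R.pr X j = 0) := by
  have hc := R_charZero R.toSuperRealisation
  have h0 := R.finite X
  have he : IsIdempotentElem (R.pr X j).hom := by
    have h1 := congrArg ModuleCat.Hom.hom (R.pr_sq X j)
    exact h1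
  have h2 : LinearMap.trace K (R.H.obj X) (R.pr X j).hom =
      Module.finrank K (LinearMap.range (R.pr X j).hom) :=
    (LinearMap.IsIdempotentElem.isProj_range _ he).trace
  refine ⟨Module.finrank K (LinearMap.range (R.pr X j).hom), h2, fun h => ?_⟩
  apply ModuleCat.hom_ext
  refine (LinearMap.IsIdempotentElem.trace_eq_zero_iff he).mp ?_
  rw [h2, h, Nat.cast_zero]

/-- The supertrace of a projector. -/
lemma exists_coef (X : C) (j : ℤ) : ∃ c : ℚ,
    LinearMap.trace K (R.H.obj X) (R.pr X j ≫ R.par X).hom = (c : K) ∧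
    (c = 0 ↔ R.pr X j = 0) := by
  have hc := R_charZero R.toSuperRealisation
  have h0 := R.finite X
  obtain ⟨b, hb, hb'⟩ := exists_rank R X j
  have h1 : LinearMap.trace K (R.H.obj X) (R.pr X j ≫ R.par X).hom = (((-1 : ℚ) ^ j * b : ℚ) : K) := by
    rw [R.par_pr, ModuleCat.hom_smul, map_smul, hb]
    push_cast
    rfl
  refine ⟨_, h1, fun h => ?_, fun h => ?_⟩
  · apply hb'
    have h2 : ((-1 : ℚ) ^ j) ≠ 0 := zpow_ne_zero _ (by norm_num)
    exact_mod_cast (mul_eq_zero.mp h).resolve_left h2
  · rw [h, zero_comp, ModuleCat.hom_zero, map_zero] at h1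
    exact_mod_cast h1.symm

/-- The supertrace of a projector. -/
noncomputable def coef (X : C) (j : ℤ) : ℚ := (exists_coef R X j).choose

lemma coef_spec (X : C) (j : ℤ) :
    LinearMap.trace K (R.H.obj X) (R.pr X j ≫ R.par X).hom = (coef R X j : K) :=
  (exists_coef R X j).choose_spec.1

lemma coef_eq_zero (X : C) (j : ℤ) : coef R X j = 0 ↔ R.pr X j = 0 :=
  (exists_coef R X j).choose_spec.2

/-- There is a lowest degree. -/
lemma exists_lowest {N : C} (hN : ¬ IsZero (R.H.obj N)) : ∃ j : ℤ, R.pr N j ≠ 0 ∧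
    ∀ i < j, R.pr N i = 0 := by
  classical
  have h1 : ((R.supp N).filter (fun j => R.pr N j ≠ 0)).Nonempty := by
    by_contra h
    rw [Finset.not_nonempty_iff_eq_empty, Finset.filter_eq_empty_iff] at h
    apply hN
    rw [IsZero.iff_id_eq_zero, ← R.pr_sum N]
    exact Finset.sum_eq_zero fun i hi => not_not.mp (h hi)
  refine ⟨Finset.min' _ h1, (Finset.mem_filter.mp (Finset.min'_mem _ h1)).2, fun i hi => ?_⟩
  by_contra h
  by_cases hi' : i ∈ R.supp N
  · exact absurd (Finset.min'_le _ i (Finset.mem_filter.mpr ⟨hi', h⟩)) (not_le.mpr hi)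
  · exact h (R.pr_supp N i hi')

/-- There is a lower bound of the degrees. -/
lemma exists_lower (M : C) : ∃ m : ℤ, ∀ i < m, R.pr M i = 0 := by
  obtain ⟨m, hm⟩ := (R.supp M).bddBelow
  refine ⟨m, fun i hi => R.pr_supp M i fun h => ?_⟩
  exact absurd (hm h) (not_le.mpr hi)

variable [RightRigidCategory C]

lemma pt_sum {M N : C} {ι : Type*} (s : Finset ι)
    (x : ι → (R.H.obj M ⊗ R.H.obj N ⟶ R.H.obj M ⊗ R.H.obj N)) :
    pt R.toSuperRealisation (∑ i ∈ s, x i) = ∑ i ∈ s, pt R.toSuperRealisation (x i) := by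
  classical
  induction s using Finset.induction_on with
  | empty =>
    rw [Finset.sum_empty, Finset.sum_empty]
    simp [pt]
  | insert a s ha ih => rw [Finset.sum_insert ha, Finset.sum_insert ha, pt_add, ih]

/-- The partial trace of a lift of a projector of the tensor product. -/
lemma map_ptr_pr {M N : C} (k : ℤ) (y : M ⊗ N ⟶ M ⊗ N) (hy : R.H.map y = R.pr (M ⊗ N) k) :
    R.H.map (ptr y) = ∑ i ∈ R.supp M, ((coef R N (k - i) : ℚ) : K) • R.pr M i := by
  have hc := R_charZero R.toSuperRealisation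
  rw [map_ptr R.toSuperRealisation, hy, pr_total, pt_sum]
  refine Finset.sum_congr rfl fun i _ => ?_
  rw [pt_tensor R.toSuperRealisation two_ne_zero, coef_spec]

/-- The main step: the projectors of a factor are algebraic if the ones of the product are. -/
lemma kunneth_left {M N : C} (hN : ¬ IsZero (R.H.obj N)) (h : R.Kunneth (M ⊗ N)) :
    R.Kunneth M := by
  classical
  have hc := R_charZero R.toSuperRealisation
  obtain ⟨j, hj, hlow⟩ := exists_lowest R hN
  obtain ⟨m, hm⟩ := exists_lower R M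
  have key : ∀ n : ℕ, ∀ i < m + n, IsAlg R (R.pr M i) := by
    intro n
    induction n with
    | zero =>
      intro i hi
      rw [hm i (by simpa using hi)]
      exact IsAlg.zero R
    | succ n ih =>
      intro i hi
      by_cases hs : i ∈ R.supp M
      swap
      · rw [R.pr_supp M i hs]
        exact IsAlg.zero R
      obtain ⟨y, hy⟩ := h (i + j)
      have h1 := map_ptr_pr R (i + j) y hy
      rw [← Finset.add_sum_erase _ _ hs] at h1
      have h2 : IsAlg R (∑ x ∈ (R.supp M).erase i, ((coef R N (i + j - x) : ℚ) : K) • R.pr M x) := by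
        apply IsAlg.sum
        intro x hx
        rcases lt_or_gt_of_ne (Finset.ne_of_mem_erase hx) with hlt | hgt
        · apply IsAlg.smul
          apply ih
          push_cast at hi
          omega
        · have h3 : coef R N (i + j - x) = 0 := by
            rw [coef_eq_zero]
            exact hlow _ (by omega)
          rw [h3, Rat.cast_zero, zero_smul]
          exact IsAlg.zero R
      have h3 : coef R N j ≠ 0 := fun h => hj ((coef_eq_zero R N j).mp h)
      have h4 : IsAlg R (((coef R N j : ℚ) : K) • R.pr M i) := by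
        have h5 : ((coef R N j : ℚ) : K) • R.pr M i = R.H.map (ptr y) -
            ∑ x ∈ (R.supp M).erase i, ((coef R N (i + j - x) : ℚ) : K) • R.pr M x := by
          rw [h1, add_sub_cancel_right, add_sub_cancel_left]
        rw [h5]
        exact IsAlg.sub ⟨_, rfl⟩ h2
      have h5 := h4.smul ((coef R N j)⁻¹)
      rw [smul_smul, ← Rat.cast_mul, inv_mul_cancel₀ h3, Rat.cast_one, one_smul] at h5
      exact h5
  intro i
  exact key (i - m + 1).toNat i (by
    have := Int.self_le_toNat (i - m + 1)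
    omega)

omit [RightRigidCategory C] in
lemma kunneth_tensor {M N : C} (hM : R.Kunneth M) (hN : R.Kunneth N) : R.Kunneth (M ⊗ N) := by
  intro k
  choose f hf using hM
  choose g hg using hN
  refine ⟨∑ i ∈ R.supp M, (f i ⊗ₘ g (k - i)), ?_⟩
  have h1 := congrArg (fun z => δ R.H M N ≫ z ≫ μ R.H M N) (pr_total R M N k)
  simp only [Category.assoc, Functor.Monoidal.δ_μ, Functor.Monoidal.δ_μ_assoc,
    Category.comp_id, Preadditive.comp_sum, Preadditive.sum_comp] at h1
  rw [h1, Functor.map_sum]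
  refine Finset.sum_congr rfl fun i _ => ?_
  rw [Functor.Monoidal.map_tensor, hf, hg]

omit [RightRigidCategory C] in
lemma kunneth_retract {M S : C} (i : S ⟶ M) (r : M ⟶ S) (h : i ≫ r = 𝟙 S) (hM : R.Kunneth M) :
    R.Kunneth S := by
  intro k
  obtain ⟨g, hg⟩ := hM k
  refine ⟨i ≫ g ≫ r, ?_⟩
  rw [Functor.map_comp, Functor.map_comp, hg, ← R.pr_natural, ← Functor.map_comp_assoc, h,
    CategoryTheory.Functor.map_id, Category.id_comp]

omit [RightRigidCategory C] in
lemma kunneth_braid {M N : C} (h : R.Kunneth (M ⊗ N)) : R.Kunneth (N ⊗ M) :=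
  kunneth_retract R (β_ N M).hom (β_ N M).inv (by simp) h

/-- The Künneth standard conjecture for a tensor product. -/
theorem kunneth_iff (M N : C) (h : ¬ IsZero (R.H.obj (M ⊗ N))) :
    R.Kunneth (M ⊗ N) ↔ R.Kunneth M ∧ R.Kunneth N := by
  have h1 : ¬ IsZero (R.H.obj M ⊗ R.H.obj N) := fun h0 =>
    h (h0.of_iso (Functor.Monoidal.μIso R.H M N).symm)
  have hM : ¬ IsZero (R.H.obj M) := fun h0 => h1 (by
    rw [IsZero.iff_id_eq_zero] at h0 ⊢
    rw [← id_whiskerRight, h0, MonoidalPreadditive.zero_whiskerRight])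
  have hN : ¬ IsZero (R.H.obj N) := fun h0 => h1 (by
    rw [IsZero.iff_id_eq_zero] at h0 ⊢
    rw [← whiskerLeft_id, h0, MonoidalPreadditive.whiskerLeft_zero])
  exact ⟨fun h => ⟨kunneth_left R hN h, kunneth_left R hM (kunneth_braid R h)⟩,
    fun h => kunneth_tensor R h.1 h.2⟩

end

end Pool.Agent.Y112.KG
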